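import Mathlib
import Pool.Agent.H538Z.Defs
import Pool.Agent.H538Z.Edge

set_option autoImplicit false

namespace Pool.Agent.Results.MP_6a31e5_al.AGrowth

open Pool.Agent.H538Z

/-- The regularity grows by at most two from one power of an edge ideal to the next. -/
theorem result :
    ∀ (K : Type) [Field K] (n : ℕ) (G : SimpleGraph (Fin n)), (∃ a b, G.Adj a b) →
      ∀ q : ℕ, 1 ≤ q → reg (edgeIdeal K G ^ (q + 1)) ≤ reg (edgeIdeal K G ^ q) + 2 := by
  intro K _ n G hG q hq
  rw [reg_pow hG hq, reg_pow hG (by omega)]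
  omega

end Pool.Agent.Results.MP_6a31e5_al.AGrowth
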